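import Pool.Agent.Lib.MP_f02ea4_nt.Mg.G006
import Pool.Agent.Lib.MP_f02ea4_nt.Mg.G003
import Pool.Agent.Lib.MP_f02ea4_nt.Mg.G004

/-! The index of an odd perfect number at a prime power component: final form. -/

set_option autoImplicit false

namespace Pool.Agent.Lib.MP_f02ea4_nt.IP

open Finset Real
open Pool.Agent.Lib.MP_f02ea4_nt.Idx
open ArithmeticFunction (sigma)

/-- the two cases -/
theorem log_le_of_small {N p k M : ℕ} (hN : Odd N) (hperf : Nat.Perfect N) (hp : p.Prime)
    (hpM : ¬ p ∣ M) (hNM : N = p ^ k * M) (hk : k < 280) :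
    log N ≤ 17501 * log ((sigma 1 M / p ^ k : ℕ) : ℝ) := by
  obtain ⟨-, -, h3⟩ := Idx.main hN hperf hp hpM hNM
  set i : ℕ := sigma 1 M / p ^ k with hi
  have hI : 0 ≤ log (i : ℝ) := log_natCast_nonneg i
  have hN0 : (0 : ℝ) < N := by exact_mod_cast hperf.2
  have h5 : (N : ℝ) ≤ (i : ℝ) ^ (62 * k + 1) := by exact_mod_cast h3
  have h6 := log_le_log hN0 h5
  rw [log_pow] at h6
  refine h6.trans (mul_le_mul_of_nonneg_right ?_ hI)
  exact_mod_cast (by omega : 62 * k + 1 ≤ 17501)

theorem log_le_of_data {N p k M i : ℕ} {F W f : ℕ → ℕ} (hp : p.Prime) (hk : 280 ≤ k)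
    (H : Data N p k M i F W f) (T : Finset ℕ) (hT3 : ∀ l ∈ T, 3 ≤ l)
    (hT : ∀ r ∈ M.primeFactors, Even (M.factorization r) → 1 ≤ W r → W r ^ 10 < p ^ F r →
      ∃ l ∈ T, l ∣ M.factorization r + 1) :
    log N ≤ 17501 * ((T.card : ℝ) + 1) * log i := by
  have h1 := kP_le hp hk H T hT3 hT
  have h2 := H.hlogN
  have hi2 : (2 : ℝ) ≤ i := by exact_mod_cast H.hi2
  have h3 : 0 ≤ log (i : ℝ) := log_nonneg (by linarith)
  have h4 : 0 ≤ (T.card : ℝ) * log i := by positivity
  nlinarith

/-- for a good prime the number `a + 1` has a prime factor `l ≥ 3` which divides `p - 1` -/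
theorem good_prime {N p k M i : ℕ} {F W f : ℕ → ℕ} (hp : p.Prime) (H : Data N p k M i F W f)
    {r : ℕ} (hr : r ∈ M.primeFactors) (he : Even (M.factorization r)) (hW : 1 ≤ W r)
    (hg : W r ^ 10 < p ^ F r) :
    (M.factorization r + 1).minFac.Prime ∧ 3 ≤ (M.factorization r + 1).minFac ∧
      (M.factorization r + 1).minFac ∣ p - 1 := by
  have hFp : Fact p.Prime := ⟨hp⟩
  have hp3 := H.hp3
  have ha := H.he1 r hr
  have hsig : (r - 1) * (W r * p ^ F r) + 1 = r ^ (M.factorization r + 1) := by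
    rw [mul_comm (W r)]; exact H.hσr r hr
  have hr3 := H.hr3 r hr
  have h1 := IdxK.ord hp (by omega) (H.hrprime r hr) (by omega) ha hW hsig hg
  have hpr := IdxK.not_dvd hp (IdxK.kappa_pos hW hg) hsig
  have h2 : (r : ZMod p) ≠ 0 := by
    rw [Ne, ZMod.natCast_eq_zero_iff]
    exact hpr
  have h3 : M.factorization r + 1 ∣ p - 1 := by
    rw [← h1]
    exact orderOf_dvd_of_pow_eq_one (ZMod.pow_card_sub_one_eq_one h2)
  have h4 : (M.factorization r + 1).minFac.Prime := Nat.minFac_prime (by omega)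
  have h5 := Nat.minFac_dvd (M.factorization r + 1)
  refine ⟨h4, ?_, h5.trans h3⟩
  have h6 := h4.two_le
  rcases Nat.lt_or_ge (M.factorization r + 1).minFac 3 with h7 | h7
  · exfalso
    have h8 : (M.factorization r + 1).minFac = 2 := by omega
    rw [h8] at h5
    obtain ⟨j, hj⟩ := he
    omega
  · exact h7

/-- the bound with the odd prime factors of `p - 1` which divide the order of a prime factor -/
theorem log_le {N p k M : ℕ} (hN : Odd N) (hperf : Nat.Perfect N) (hp : p.Prime)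
    (hpM : ¬ p ∣ M) (hNM : N = p ^ k * M) :
    log N ≤ 17501 * ((((p - 1).primeFactors.filter (fun l => l ≠ 2 ∧
      ∃ r ∈ M.primeFactors, l ∣ M.factorization r + 1)).card : ℝ) + 1) *
        log ((sigma 1 M / p ^ k : ℕ) : ℝ) := by
  classical
  set T := (p - 1).primeFactors.filter (fun l => l ≠ 2 ∧
      ∃ r ∈ M.primeFactors, l ∣ M.factorization r + 1) with hT
  rcases Nat.lt_or_ge k 280 with hk | hk
  · have h1 := log_le_of_small hN hperf hp hpM hNM hk
    have h2 : 0 ≤ log ((sigma 1 M / p ^ k : ℕ) : ℝ) := log_natCast_nonneg _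
    have h3 : 0 ≤ (T.card : ℝ) * log ((sigma 1 M / p ^ k : ℕ) : ℝ) := by positivity
    nlinarith
  · obtain ⟨hdM, i, F, W, f, H⟩ := exists_data hN hperf hp hpM hNM (by omega)
    rw [H.hidiv]
    have hp3 := H.hp3
    refine log_le_of_data hp hk H T ?_ ?_
    · intro l hl
      obtain ⟨h1, h2, -⟩ := Finset.mem_filter.1 hl
      have h3 := (Nat.prime_of_mem_primeFactors h1).two_le
      omega
    · intro r hr he hW hg
      obtain ⟨h1, h2, h3⟩ := good_prime hp H hr he hW hg
      refine ⟨_, Finset.mem_filter.2 ⟨Nat.mem_primeFactors.2 ⟨h1, h3, by omega⟩, by omega, r, hr,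
        Nat.minFac_dvd _⟩, Nat.minFac_dvd _⟩

/-- the odd primes which divide `p - 1` and an exponent `+ 1`: at most `ω(p - 1) - 1` -/
theorem card_le_omega {p M : ℕ} (hp : p.Prime) (hp2 : p ≠ 2) :
    ((p - 1).primeFactors.filter (fun l => l ≠ 2 ∧
      ∃ r ∈ M.primeFactors, l ∣ M.factorization r + 1)).card + 1 ≤ (p - 1).primeFactors.card := by
  classical
  have hp3 : 3 ≤ p := by have := hp.two_le; omega
  have h1 : (p - 1).primeFactors.filter (fun l => l ≠ 2 ∧
      ∃ r ∈ M.primeFactors, l ∣ M.factorization r + 1) ⊆ (p - 1).primeFactors.erase 2 := by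
    intro l hl
    obtain ⟨h1, h2, -⟩ := Finset.mem_filter.1 hl
    exact Finset.mem_erase.2 ⟨h2, h1⟩
  have h2 : 2 ∈ (p - 1).primeFactors := by
    refine Nat.mem_primeFactors.2 ⟨Nat.prime_two, ?_, by omega⟩
    obtain ⟨j, hj⟩ := hp.odd_of_ne_two hp2
    exact ⟨j, by omega⟩
  have h3 := Finset.card_le_card h1
  rw [Finset.card_erase_of_mem h2] at h3
  have h4 : 0 < (p - 1).primeFactors.card := Finset.card_pos.2 ⟨2, h2⟩
  omega

/-- the odd primes which divide `p - 1` and an exponent `+ 1`: at most `π(B + 1) - 1` -/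
theorem card_le_bounded {p M B : ℕ} (hB : 1 ≤ B)
    (hMB : ∀ r ∈ M.primeFactors, M.factorization r ≤ B) :
    ((p - 1).primeFactors.filter (fun l => l ≠ 2 ∧
      ∃ r ∈ M.primeFactors, l ∣ M.factorization r + 1)).card + 1 ≤
        Nat.primeCounting (B + 1) := by
  classical
  have h1 : (p - 1).primeFactors.filter (fun l => l ≠ 2 ∧
      ∃ r ∈ M.primeFactors, l ∣ M.factorization r + 1) ⊆
        ((Finset.range (B + 2)).filter Nat.Prime).erase 2 := by
    intro l hl
    obtain ⟨h1, h2, r, hr, h3⟩ := Finset.mem_filter.1 hl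
    have h4 := Nat.le_of_dvd (by omega) h3
    have h5 := hMB r hr
    exact Finset.mem_erase.2 ⟨h2, Finset.mem_filter.2
      ⟨Finset.mem_range.2 (by omega), Nat.prime_of_mem_primeFactors h1⟩⟩
  have h2 : 2 ∈ (Finset.range (B + 2)).filter Nat.Prime :=
    Finset.mem_filter.2 ⟨Finset.mem_range.2 (by omega), Nat.prime_two⟩
  have h3 := Finset.card_le_card h1
  rw [Finset.card_erase_of_mem h2] at h3
  have h4 : 0 < ((Finset.range (B + 2)).filter Nat.Prime).card := Finset.card_pos.2 ⟨2, h2⟩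
  have h5 : Nat.primeCounting (B + 1) = ((Finset.range (B + 2)).filter Nat.Prime).card := by
    rw [Nat.primeCounting, Nat.primeCounting', Nat.count_eq_card_filter_range]
  rw [h5]
  omega

/-- a set `T` of primes as above with few elements -/
theorem exists_T {c₀ : ℝ} (hc : ∀ (R : Finset ℕ) (l : ℕ → ℕ),
    (∀ r ∈ R, 3 ≤ r) → (∀ r ∈ R, (l r).Prime) → (∀ r ∈ R, 3 ≤ l r) → Set.InjOn l R →
    c₀ * ((R.card : ℝ) * log R.card) ^ 2 ≤ ∑ r ∈ R, ((l r : ℝ) - 1) * log r)
    {N p k M : ℕ} (hN : Odd N) (hperf : Nat.Perfect N) (hp : p.Prime)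
    (hpM : ¬ p ∣ M) (hNM : N = p ^ k * M) :
    ∃ n : ℕ, log N ≤ 17501 * ((n : ℝ) + 1) * log ((sigma 1 M / p ^ k : ℕ) : ℝ) ∧
      c₀ * ((n : ℝ) * log n) ^ 2 ≤ log N := by
  classical
  have hN1 : 1 ≤ N := hperf.2
  have hlogN : 0 ≤ log (N : ℝ) := log_natCast_nonneg _
  rcases Nat.lt_or_ge k 280 with hk | hk
  · refine ⟨0, ?_, by simpa using hlogN⟩
    have h1 := log_le_of_small hN hperf hp hpM hNM hk
    push_cast
    linarith
  · obtain ⟨hdM, i, F, W, f, H⟩ := exists_data hN hperf hp hpM hNM (by omega)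
    rw [H.hidiv]
    set S := M.primeFactors.filter (fun r => Even (M.factorization r) ∧ 1 ≤ W r ∧
      W r ^ 10 < p ^ F r) with hS
    set l : ℕ → ℕ := fun r => (M.factorization r + 1).minFac with hl
    have hsurj : Set.SurjOn l (↑S : Set ℕ) (S.image l) := by
      rw [Finset.coe_image]
      exact Set.surjOn_image l S
    obtain ⟨R, hRS, hinj, himg⟩ := Finset.exists_subset_injOn_image_eq_of_surjOn (↑S : Set ℕ)
      (S.image l) hsurj
    have hS' : ∀ r ∈ S, r ∈ M.primeFactors ∧ (l r).Prime ∧ 3 ≤ l r := by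
      intro r hr
      obtain ⟨h1, h2, h3, h4⟩ := Finset.mem_filter.1 hr
      obtain ⟨h5, h6, -⟩ := good_prime hp H h1 h2 h3 h4
      exact ⟨h1, h5, h6⟩
    have hcard : (S.image l).card = R.card := by
      rw [← himg]
      exact Finset.card_image_of_injOn hinj
    refine ⟨R.card, ?_, ?_⟩
    · rw [← hcard]
      refine log_le_of_data hp hk H (S.image l) ?_ ?_
      · intro y hy
        obtain ⟨r, hr, rfl⟩ := Finset.mem_image.1 hy
        exact (hS' r hr).2.2
      · intro r hr he hW hg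
        exact ⟨l r, Finset.mem_image.2 ⟨r, Finset.mem_filter.2 ⟨hr, he, hW, hg⟩, rfl⟩,
          Nat.minFac_dvd _⟩
    · have hRS' : ∀ r ∈ R, r ∈ S := fun r hr => hRS hr
      refine (hc R l (fun r hr => H.hr3 r (hS' r (hRS' r hr)).1)
        (fun r hr => (hS' r (hRS' r hr)).2.1) (fun r hr => (hS' r (hRS' r hr)).2.2) hinj).trans ?_
      have h1 : ∑ r ∈ R, ((l r : ℝ) - 1) * log r ≤ ∑ r ∈ R, (M.factorization r : ℝ) * log r := by
        apply Finset.sum_le_sum
        intro r _
        apply mul_le_mul_of_nonneg_right _ (log_natCast_nonneg r)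
        have h2 : (l r : ℕ) ≤ M.factorization r + 1 := Nat.minFac_le (by omega)
        have h3 : (l r : ℝ) ≤ (M.factorization r : ℝ) + 1 := by exact_mod_cast h2
        linarith
      refine h1.trans ?_
      have hdvd : ∏ r ∈ R, r ^ M.factorization r ∣ M := by
        apply Finset.prod_dvd_of_isRelPrime
        · intro r hr s hs hrs
          have hco : Nat.Coprime r s := (Nat.coprime_primes
            (H.hrprime r (hS' r (hRS' r hr)).1) (H.hrprime s (hS' s (hRS' s hs)).1)).mpr hrs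
          exact Nat.coprime_iff_isRelPrime.mp (Nat.Coprime.pow _ _ hco)
        · intro r _
          exact Nat.ordProj_dvd M r
      have hMN : M ∣ N := ⟨p ^ k, by rw [hNM, mul_comm]⟩
      have hle : ∏ r ∈ R, r ^ M.factorization r ≤ N := Nat.le_of_dvd hN1 (hdvd.trans hMN)
      have hpos : 0 < ∏ r ∈ R, r ^ M.factorization r := Finset.prod_pos (fun r hr => by
        have := (H.hrprime r (hS' r (hRS' r hr)).1).pos
        positivity)
      have h3 : ((∏ r ∈ R, r ^ M.factorization r : ℕ) : ℝ) ≤ N := by exact_mod_cast hle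
      have h4 := log_le_log (by exact_mod_cast hpos) h3
      have h5 : log ((∏ r ∈ R, r ^ M.factorization r : ℕ) : ℝ)
          = ∑ r ∈ R, (M.factorization r : ℝ) * log r := by
        push_cast
        rw [Real.log_prod (fun r hr => by
          have := (H.hrprime r (hS' r (hRS' r hr)).1).pos
          positivity)]
        exact Finset.sum_congr rfl (fun r _ => by rw [log_pow])
      rw [h5] at h4
      exact h4

end Pool.Agent.Lib.MP_f02ea4_nt.IP
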