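import Pool.Agent.Lib.MP_f02ea4_nt.Mg.G015

/-! Largest prime factor of an odd perfect number: the final statement. -/

set_option autoImplicit false

namespace Pool.Agent.Lib.MP_f02ea4_nt.IP

open Finset Real
open ArithmeticFunction (sigma)

theorem LP_absorb {c₀ c₁ c : ℝ} (hc₀ : 0 < c₀) (hc : 0 < c) (hcc : c ≤ c₀ / 2)
    (hc₁ : 0 ≤ c₁) (hc1 : c * (2 / c₀ * log (1 / c₀)) ≤ c₁) {P N w y : ℝ} (hP : 0 < P)
    (hw : 1 ≤ w) (hy : 1 ≤ y) (hN : 0 < N) (h : c₀ * P ^ 3 * w ^ c₀ ≤ N)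
    (h' : P ^ 3 * exp (c₁ * y) < 3 * N) : P ^ 3 * w ^ c < 3 * N := by
  have hw0 : 0 < w := by linarith
  have hP3 : 0 < P ^ 3 := by positivity
  rcases le_or_gt (1 / c₀) (w ^ (c₀ / 2)) with h1 | h1
  · have h2 : w ^ c₀ = w ^ (c₀ / 2) * w ^ (c₀ / 2) := by
      rw [← rpow_add hw0]; congr 1; ring
    have h3 : 1 ≤ c₀ * w ^ (c₀ / 2) := by
      rw [div_le_iff₀ hc₀] at h1
      linarith
    have h4 : w ^ c ≤ w ^ (c₀ / 2) := rpow_le_rpow_of_exponent_le hw hcc
    have h5 : 0 < w ^ (c₀ / 2) := rpow_pos_of_pos hw0 _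
    calc P ^ 3 * w ^ c ≤ P ^ 3 * (1 * w ^ (c₀ / 2)) := by
          rw [one_mul]; exact mul_le_mul_of_nonneg_left h4 hP3.le
      _ ≤ P ^ 3 * ((c₀ * w ^ (c₀ / 2)) * w ^ (c₀ / 2)) :=
          mul_le_mul_of_nonneg_left (mul_le_mul_of_nonneg_right h3 h5.le) hP3.le
      _ = c₀ * P ^ 3 * w ^ c₀ := by rw [h2]; ring
      _ ≤ N := h
      _ < 3 * N := by linarith
  · have h2 : log w * (c₀ / 2) < log (1 / c₀) := by
      have h3 := log_lt_log (rpow_pos_of_pos hw0 _) h1
      rw [log_rpow hw0] at h3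
      linarith
    have h3 : log w ≤ 2 / c₀ * log (1 / c₀) := by
      have h4 : 2 / c₀ * (log w * (c₀ / 2)) = log w := by field_simp
      rw [← h4]
      exact mul_le_mul_of_nonneg_left h2.le (by positivity)
    have h4 : w ^ c ≤ exp (c₁ * y) := by
      rw [rpow_def_of_pos hw0, exp_le_exp]
      calc log w * c = c * log w := mul_comm _ _
        _ ≤ c * (2 / c₀ * log (1 / c₀)) := mul_le_mul_of_nonneg_left h3 hc.le
        _ ≤ c₁ * 1 := by linarith
        _ ≤ c₁ * y := mul_le_mul_of_nonneg_left hy hc₁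
    exact lt_of_le_of_lt (mul_le_mul_of_nonneg_left h4 hP3.le) h'

/-- from `Φ ≤ K (1 + F)` to `c P³ exp(Φ)^c ≤ N` -/
theorem LP_toN {K c : ℝ} (hc0 : 0 < c) (hcK : c * K ≤ 1) (hc20 : c ≤ 1 / 20)
    {P N F Φ : ℝ} (hP : 0 ≤ P) (hN : 0 ≤ N) (hF : 0 ≤ F) (hs : P ^ 3 * exp F ≤ 6 * N)
    (hΦ : Φ ≤ K * (1 + F)) : c * P ^ 3 * exp Φ ^ c ≤ N := by
  have h2 : exp Φ ^ c ≤ exp (1 + F) := by
    rw [← exp_mul, exp_le_exp]
    calc Φ * c ≤ (K * (1 + F)) * c := mul_le_mul_of_nonneg_right hΦ hc0.le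
      _ = (c * K) * (1 + F) := by ring
      _ ≤ 1 * (1 + F) := mul_le_mul_of_nonneg_right hcK (by linarith)
      _ = _ := one_mul _
  rw [exp_add] at h2
  have he : exp 1 < (2.7182818286 : ℝ) := exp_one_lt_d9
  have hP3 : 0 ≤ P ^ 3 := by positivity
  calc c * P ^ 3 * exp Φ ^ c ≤ c * P ^ 3 * (exp 1 * exp F) :=
        mul_le_mul_of_nonneg_left h2 (by positivity)
    _ = (c * exp 1) * (P ^ 3 * exp F) := by ring
    _ ≤ (c * exp 1) * (6 * N) := mul_le_mul_of_nonneg_left hs (by positivity)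
    _ = (c * exp 1 * 6) * N := by ring
    _ ≤ 1 * N := by
        apply mul_le_mul_of_nonneg_right _ hN
        have : c * exp 1 ≤ (1 / 20) * 2.7182818286 :=
          mul_le_mul hc20 he.le (exp_pos _).le (by norm_num)
        linarith
    _ = N := one_mul _

theorem LP_pre : ∃ c₀ : ℝ, 0 < c₀ ∧ ∀ N : ℕ, Odd N → Nat.Perfect N →
    (∀ P : ℕ, P.Prime → P ∣ N →
      c₀ * (P : ℝ) ^ 3 * exp (√(log N) * log (log N)) ^ c₀ ≤ N) ∧
    (∀ B : ℕ, (∀ p : ℕ, N.factorization p ≤ B) → ∀ P : ℕ, P.Prime → P ∣ N →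
      c₀ * (P : ℝ) ^ 3 * exp (log P / (Nat.primeCounting (B + 1) : ℝ)) ^ c₀ ≤ N) ∧
    (∀ P q : ℕ, P.Prime → N.factorization P = 1 → q.Prime → q ∣ N →
      P ∣ sigma 1 (q ^ N.factorization q) →
      c₀ * (P : ℝ) ^ 3 * exp (log P / ((q - 1).primeFactors.card : ℝ)) ^ c₀ ≤ N) := by
  obtain ⟨K, hK, hall⟩ := LP_all
  set c := min (1 / K) (1 / 200 : ℝ) with hc
  have hc0 : 0 < c := lt_min (by positivity) (by norm_num)
  have hcK : c * K ≤ 1 := by
    have : c ≤ 1 / K := min_le_left _ _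
    rwa [le_div_iff₀ hK] at this
  have hc200 : c ≤ 1 / 200 := min_le_right _ _
  have hlogc : log c ≤ -5 := by
    have h1 : log c ≤ log (1 / 200 : ℝ) := log_le_log hc0 hc200
    have h2 : log (1 / 200 : ℝ) ≤ -5 := by
      rw [log_le_iff_le_exp (by norm_num)]
      have h3 : exp 5 ≤ 200 := by
        have he : exp 1 < (2.7182818286 : ℝ) := exp_one_lt_d9
        have h4 : exp 5 = exp 1 ^ 5 := by rw [← exp_nat_mul]; norm_num
        rw [h4]
        calc exp 1 ^ 5 ≤ (2.7182818286 : ℝ) ^ 5 :=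
              pow_le_pow_left₀ (exp_pos _).le he.le 5
          _ ≤ 200 := by norm_num
      rw [exp_neg]
      rw [one_div]
      exact inv_anti₀ (exp_pos _) h3
    linarith
  refine ⟨c, hc0, ?_⟩
  intro N hN hperf
  have hN0 : 0 < N := hperf.2
  have hNr : (1 : ℝ) ≤ N := by exact_mod_cast hN0
  have hNp : (0 : ℝ) < N := by linarith
  set x := log (N : ℝ) with hx
  -- from logarithms to the statement
  have key : ∀ (P : ℕ) (z : ℝ), P.Prime → log c + 3 * log P + c * z ≤ x →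
      c * (P : ℝ) ^ 3 * exp z ^ c ≤ N := by
    intro P z hP hz
    have hP0 : (0 : ℝ) < P := by exact_mod_cast hP.pos
    rw [← log_le_log_iff (by positivity) hNp, log_mul (by positivity) (by positivity),
      log_rpow (exp_pos _), log_exp, log_mul (by positivity) (by positivity), log_pow]
    push_cast
    linarith
  have hfour : ∀ P : ℕ, P.Prime → 2 ≤ N.factorization P → 4 * log (P : ℝ) ≤ 1 + x := by
    intro P hP hPN
    have h1 := LP.pow_four_le hN hperf hP hPN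
    have hP0 : (0 : ℝ) < P := by exact_mod_cast hP.pos
    have h2 : (P : ℝ) ^ 4 ≤ 2 * N := by exact_mod_cast h1
    have h3 := log_le_log (by positivity) h2
    rw [log_pow, log_mul (by norm_num) (by positivity)] at h3
    have : log 2 < (0.6931471808 : ℝ) := log_two_lt_d9
    push_cast at h3
    linarith
  have hfac : ∀ P : ℕ, P.Prime → P ∣ N → N.factorization P = 1 ∨ 2 ≤ N.factorization P := by
    intro P hP hPN
    have := hP.factorization_pos_of_dvd hN0.ne' hPN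
    omega
  have hx1 : ∀ P : ℕ, P.Prime → P ∣ N → 1 ≤ x := by
    intro P hP hPN
    have h3 : 3 ≤ N := by
      have h4 := Nat.le_of_dvd hN0 hPN
      have h5 := hP.two_le
      obtain ⟨j, hj⟩ := hN
      omega
    have h3' : (3 : ℝ) ≤ N := by exact_mod_cast h3
    rw [hx, le_log_iff_exp_le hNp]
    have h4 : exp 1 < 2.7182818286 := exp_one_lt_d9
    linarith
  have hΦ : 1 ≤ x → √x * log x ≤ 2 * x := by
    intro h1
    have hx0 : 0 < x := by linarith
    have hsx : 0 < √x := sqrt_pos.2 hx0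
    have h4 : log x ≤ 2 * √x := by
      have h5 : log x = 2 * log √x := by rw [log_sqrt hx0.le]; ring
      have h6 : log √x ≤ √x - 1 := log_le_sub_one_of_pos hsx
      linarith
    calc √x * log x ≤ √x * (2 * √x) := mul_le_mul_of_nonneg_left h4 hsx.le
      _ = 2 * (√x * √x) := by ring
      _ = 2 * x := by rw [mul_self_sqrt hx0.le]
  refine ⟨?_, ?_, ?_⟩
  · intro P hP hPN
    have hlP : 0 ≤ log (P : ℝ) := log_natCast_nonneg P
    have h1 := hx1 P hP hPN
    have h2 := hΦ h1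
    have h2' : c * (√x * log x) ≤ c * (2 * x) := mul_le_mul_of_nonneg_left h2 hc0.le
    have h2'' : c * (2 * x) ≤ 1 / 200 * (2 * x) :=
      mul_le_mul_of_nonneg_right hc200 (by linarith)
    rcases hfac P hP hPN with h3 | h3
    · rcases le_or_gt x (6 * log (P : ℝ)) with h4 | h4
      · obtain ⟨q, hq, hqN, hPq⟩ := LP.exists_payer hN hperf hP h3
        obtain ⟨F, hF, hs, -, hF2⟩ := hall hN hperf hP h3 hq hqN hPq
        exact LP_toN hc0 hcK (by linarith) (Nat.cast_nonneg _) hNp.le hF hs (hF2 h4)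
      · apply key P _ hP
        linarith
    · apply key P _ hP
      have := hfour P hP h3
      linarith
  · intro B hB P hP hPN
    have hlP : 0 ≤ log (P : ℝ) := log_natCast_nonneg P
    have hB1 : 1 ≤ B := lt_of_lt_of_le (hP.factorization_pos_of_dvd hN0.ne' hPN) (hB P)
    have hpi1 : 1 ≤ Nat.primeCounting (B + 1) := by
      have h1 := card_le_bounded (p := 2) (M := N) hB1 (fun r _ => hB r)
      omega
    have hpi : (1 : ℝ) ≤ (Nat.primeCounting (B + 1) : ℝ) := by exact_mod_cast hpi1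
    have hle : log (P : ℝ) / (Nat.primeCounting (B + 1) : ℝ) ≤ log P :=
      div_le_self hlP hpi
    have hdn : 0 ≤ log (P : ℝ) / (Nat.primeCounting (B + 1) : ℝ) := by positivity
    have hcl : c * (log (P : ℝ) / (Nat.primeCounting (B + 1) : ℝ)) ≤ 1 / 200 * log P :=
      mul_le_mul hc200 hle hdn (by norm_num)
    rcases hfac P hP hPN with h3 | h3
    · obtain ⟨q, hq, hqN, hPq⟩ := LP.exists_payer hN hperf hP h3
      obtain ⟨F, hF, hs, hF1, -⟩ := hall hN hperf hP h3 hq hqN hPq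
      apply LP_toN hc0 hcK (by linarith) (Nat.cast_nonneg _) hNp.le hF hs
      rw [div_le_iff₀ (by linarith)]
      refine hF1.trans ?_
      have h5 := card_le_bounded (p := q) (M := N) hB1 (fun r _ => hB r)
      have h6 : ((((q - 1).primeFactors.filter (fun l => l ≠ 2 ∧
        ∃ r ∈ N.primeFactors, l ∣ N.factorization r + 1)).card : ℝ) + 1) ≤
          (Nat.primeCounting (B + 1) : ℝ) := by exact_mod_cast h5
      calc K * ((((q - 1).primeFactors.filter (fun l => l ≠ 2 ∧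
            ∃ r ∈ N.primeFactors, l ∣ N.factorization r + 1)).card : ℝ) + 1) * (1 + F)
          = (K * (1 + F)) * ((((q - 1).primeFactors.filter (fun l => l ≠ 2 ∧
            ∃ r ∈ N.primeFactors, l ∣ N.factorization r + 1)).card : ℝ) + 1) := by ring
        _ ≤ (K * (1 + F)) * (Nat.primeCounting (B + 1) : ℝ) :=
            mul_le_mul_of_nonneg_left h6 (by positivity)
    · apply key P _ hP
      have := hfour P hP h3
      linarith
  · intro P q hP hPN hq hqN hPq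
    obtain ⟨F, hF, hs, hF1, -⟩ := hall hN hperf hP hPN hq hqN hPq
    have hq2 : q ≠ 2 := by
      rintro rfl
      exact (Nat.not_even_iff_odd.2 hN) (even_iff_two_dvd.2 hqN)
    have h5 := card_le_omega (M := N) hq hq2
    have h6 : ((((q - 1).primeFactors.filter (fun l => l ≠ 2 ∧
      ∃ r ∈ N.primeFactors, l ∣ N.factorization r + 1)).card : ℝ) + 1) ≤
        ((q - 1).primeFactors.card : ℝ) := by exact_mod_cast h5
    have h7 : (0 : ℝ) < ((q - 1).primeFactors.card : ℝ) := by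
      have : 0 < (q - 1).primeFactors.card := by omega
      exact_mod_cast this
    apply LP_toN hc0 hcK (by linarith) (Nat.cast_nonneg _) hNp.le hF hs
    rw [div_le_iff₀ h7]
    refine hF1.trans ?_
    calc K * ((((q - 1).primeFactors.filter (fun l => l ≠ 2 ∧
          ∃ r ∈ N.primeFactors, l ∣ N.factorization r + 1)).card : ℝ) + 1) * (1 + F)
        = (K * (1 + F)) * ((((q - 1).primeFactors.filter (fun l => l ≠ 2 ∧
          ∃ r ∈ N.primeFactors, l ∣ N.factorization r + 1)).card : ℝ) + 1) := by ring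
      _ ≤ (K * (1 + F)) * ((q - 1).primeFactors.card : ℝ) :=
          mul_le_mul_of_nonneg_left h6 (by positivity)

/-- The final statement. -/
theorem LP_final3 : ∃ c : ℝ, 0 < c ∧ ∀ N : ℕ, Odd N → Nat.Perfect N →
    (∀ P : ℕ, P.Prime → P ∣ N →
      (P : ℝ) ^ 3 * exp (c * (√(log N) * log (log N))) < 3 * N) ∧
    (∀ B : ℕ, (∀ p : ℕ, N.factorization p ≤ B) → ∀ P : ℕ, P.Prime → P ∣ N →
      (P : ℝ) ^ (3 + c / (Nat.primeCounting (B + 1) : ℝ)) < 3 * N) ∧
    (∀ P q : ℕ, P.Prime → N.factorization P = 1 → q.Prime → q ∣ N →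
      P ∣ sigma 1 (q ^ N.factorization q) →
      (P : ℝ) ^ 3 * ((2 : ℝ) ^ N.factorization q * q) ^ c < 3 * N ∧
      (P : ℝ) ^ (3 + c / ((q - 1).primeFactors.card : ℝ)) < 3 * N) := by
  obtain ⟨c₀, hc₀, h⟩ := LP_pre
  obtain ⟨c₁, hc₁, h1⟩ := LP.final2
  set K : ℝ := 1 + 2 / c₀ * |log (1 / c₀)| with hK
  have hK1 : 1 ≤ K := by
    have : 0 ≤ 2 / c₀ * |log (1 / c₀)| := by positivity
    linarith
  have hK0 : 0 < K := by linarith
  set c := min (c₀ / 2) (c₁ / K) with hc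
  have hc0 : 0 < c := lt_min (by positivity) (by positivity)
  have hcc : c ≤ c₀ / 2 := min_le_left _ _
  have hcK : c * K ≤ c₁ := by
    have : c ≤ c₁ / K := min_le_right _ _
    rwa [le_div_iff₀ hK0] at this
  have hcc1 : c ≤ c₁ := by nlinarith
  have hcl : c * (2 / c₀ * log (1 / c₀)) ≤ c₁ := by
    refine le_trans (mul_le_mul_of_nonneg_left ?_ hc0.le) hcK
    have h2 : 2 / c₀ * log (1 / c₀) ≤ 2 / c₀ * |log (1 / c₀)| :=
      mul_le_mul_of_nonneg_left (le_abs_self _) (by positivity)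
    linarith
  refine ⟨c, hc0, ?_⟩
  intro N hN hperf
  obtain ⟨hA1, hA2, hA3⟩ := h N hN hperf
  obtain ⟨hB1, -, hB3⟩ := h1 N hN hperf
  have hN1 : (1 : ℝ) ≤ N := by exact_mod_cast hperf.2
  have hNp : (0 : ℝ) < N := by linarith
  have hN3 : 3 ≤ N := by
    by_contra hlt
    push Not at hlt
    have h2 := hperf.2
    have h3 : N = 1 := by
      obtain ⟨k, hk⟩ := hN
      omega
    have h4 := (Nat.perfect_iff_sum_divisors_eq_two_mul hperf.2).1 hperf
    rw [h3] at h4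
    simp at h4
  have hx1 : 1 ≤ log (N : ℝ) := by
    have h2 : log 3 ≤ log (N : ℝ) := log_le_log (by norm_num) (by exact_mod_cast hN3)
    exact LP.log3_ge.trans h2
  have hy1 : 1 ≤ √(log (N : ℝ)) := by
    rw [one_le_sqrt]
    exact hx1
  have hpow : ∀ (P : ℕ) (n : ℝ), P.Prime → 0 ≤ n → ∀ z : ℝ,
      (P : ℝ) ^ (3 + z / n) = (P : ℝ) ^ 3 * exp (log P / n) ^ z := by
    intro P n hP hn z
    have hP0 : (0 : ℝ) < P := by exact_mod_cast hP.pos
    rw [rpow_add hP0, ← exp_mul, rpow_def_of_pos hP0 (z / n)]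
    congr 1
    · norm_cast
    · congr 1; ring
  have hstep : ∀ (P : ℕ) (n : ℝ), P.Prime → P ∣ N → 0 ≤ n →
      c₀ * (P : ℝ) ^ 3 * exp (log P / n) ^ c₀ ≤ N → (P : ℝ) ^ (3 + c / n) < 3 * N := by
    intro P n hP hPN hn h2
    have hP0 : (0 : ℝ) < P := by exact_mod_cast hP.pos
    have hlP : 0 ≤ log (P : ℝ) := log_natCast_nonneg P
    rw [hpow P n hP hn c]
    exact LP_absorb hc₀ hc0 hcc hc₁.le hcl hP0 (one_le_exp (by positivity)) hy1 hNp h2
      (hB1 P hP hPN)
  refine ⟨?_, ?_, ?_⟩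
  · intro P hP hPN
    have hP0 : (0 : ℝ) < P := by exact_mod_cast hP.pos
    have h2 : exp (c * (√(log (N : ℝ)) * log (log N)))
        = exp (√(log (N : ℝ)) * log (log N)) ^ c := by
      rw [← exp_mul]; congr 1; ring
    rw [h2]
    exact LP_absorb hc₀ hc0 hcc hc₁.le hcl hP0
      (one_le_exp (mul_nonneg (sqrt_nonneg _) (log_nonneg hx1))) hy1 hNp (hA1 P hP hPN)
      (hB1 P hP hPN)
  · intro B hB P hP hPN
    exact hstep P _ hP hPN (Nat.cast_nonneg _) (hA2 B hB P hP hPN)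
  · intro P q hP hPN hq hqN hPq
    have hPdN : P ∣ N := Nat.dvd_of_factorization_pos (by rw [hPN]; exact one_ne_zero)
    refine ⟨?_, hstep P _ hP hPdN (Nat.cast_nonneg _) (hA3 P q hP hPN hq hqN hPq)⟩
    have hP0 : (0 : ℝ) < P := by exact_mod_cast hP.pos
    have hq1 : (1 : ℝ) ≤ q := by exact_mod_cast hq.one_lt.le
    have hw : (1 : ℝ) ≤ (2 : ℝ) ^ N.factorization q * q := by
      have : (1 : ℝ) ≤ (2 : ℝ) ^ N.factorization q := one_le_pow₀ (by norm_num)
      nlinarith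
    refine lt_of_le_of_lt ?_ (hB3 P q hP hPN hq hqN hPq)
    exact mul_le_mul_of_nonneg_left (rpow_le_rpow_of_exponent_le hw hcc1) (by positivity)

end Pool.Agent.Lib.MP_f02ea4_nt.IP
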